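import Pool.Agent.Work.MP_9f8812_co.EC.Full2
import Pool.Agent.Work.MP_a8f287_co.Frozen

set_option autoImplicit false

namespace Pool.Agent.Results.MP_9f8812_co.GraphicLifts

open Submodule Module

/-- The vector matroid of the family `v` over `GF(2)` has a minor isomorphic to `M(K5)`: there
are a set `C` of indices and ten further indices, named by the edges of `K5`, such that modulo
the span of `v '' C` a set of the ten vectors is linearly independent if and only if the
corresponding edges form a forest. -/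
def HasMinorK5 {n : ℕ} {ι : Type} (v : ι → (Fin n → ZMod 2)) : Prop :=
  ∃ (C : Set ι) (h : (⊤ : SimpleGraph (Fin 5)).edgeSet → ι),
    Function.Injective h ∧ (∀ e, h e ∉ C) ∧
    ∀ F : Set (⊤ : SimpleGraph (Fin 5)).edgeSet,
      (LinearIndependent (ZMod 2)
          (fun e : F => (Submodule.span (ZMod 2) (v '' C)).mkQ (v (h e.1))) ↔
        (SimpleGraph.fromEdgeSet (Subtype.val '' F)).IsAcyclic)

/-- The characteristic polynomial `P(M; lam)` of the vector matroid `M` of the family `v`:
the sum over all sets `X` of indices of `(-1)^|X| lam^(r(M) - r(X))`. -/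
noncomputable def charPoly {n : ℕ} {ι : Type} [Fintype ι] (v : ι → (Fin n → ZMod 2))
    (lam : ℝ) : ℝ :=
  ∑ X : Finset ι, (-1 : ℝ) ^ X.card *
    lam ^ (Module.finrank (ZMod 2) ↥(Submodule.span (ZMod 2) (Set.range v)) -
      Module.finrank (ZMod 2) ↥(Submodule.span (ZMod 2) (v '' (X : Set ι))))

/-- The kernel of `φ` in the span of the family `v`. -/
def kernel {n m : ℕ} {ι : Type} (v : ι → (Fin n → ZMod 2))
    (φ : (Fin n → ZMod 2) →ₗ[ZMod 2] (Fin m → ZMod 2)) : Submodule (ZMod 2) (Fin n → ZMod 2) :=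
  LinearMap.ker φ ⊓ Submodule.span (ZMod 2) (Set.range v)

/-- Let `v : ι → GF(2)^n` be a finite family of nonzero vectors (a coordinatization of a
loopless binary matroid `M` on `ι`) without `M(K5)`-minor, `φ` a linear map such that every
`φ (v i)` has at most two nonzero coordinates (so the `φ (v i)` are the edges of a graph),
and `K` the kernel of `φ` in the span of `v`.  Let `t ≥ 1`, and let `dim K ≤ t`, or let
`dim K ≤ 3` and `K` contain at least `3 dim K - 3` distinct `v i`, or let `t ≥ 2`, `dim K ≤ t + 1`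
and `K` be spanned by the `v i` in `K`.  Then `P(M; lam) > 0` for all real `lam ≥ 4 + t`. -/
theorem result (n m : ℕ) (ι : Type) [Fintype ι] (v : ι → (Fin n → ZMod 2))
    (h0 : ∀ i, v i ≠ 0) (hfree : ¬ HasMinorK5 v)
    (φ : (Fin n → ZMod 2) →ₗ[ZMod 2] (Fin m → ZMod 2))
    (hφ : ∀ i, (Finset.univ.filter fun j => φ (v i) j ≠ 0).card ≤ 2)
    (t : ℕ) (h1 : 1 ≤ t) (hK : Module.finrank (ZMod 2) ↥(kernel v φ) ≤ t ∨
      (Module.finrank (ZMod 2) ↥(kernel v φ) ≤ 3 ∧ 3 * Module.finrank (ZMod 2) ↥(kernel v φ) ≤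
        ({x | x ∈ Set.range v ∧ x ∈ kernel v φ}).ncard + 3) ∨
      (2 ≤ t ∧ Module.finrank (ZMod 2) ↥(kernel v φ) ≤ t + 1 ∧
        kernel v φ = Submodule.span (ZMod 2) {x | x ∈ Set.range v ∧ x ∈ kernel v φ}))
    (lam : ℝ) (hlam : 4 + (t : ℝ) ≤ lam) : 0 < charPoly v lam := by
  classical
  have hK5 : ¬ Pool.Agent.WW.HasK5 (Set.range v) := by
    intro hK
    obtain ⟨C, h, hC, hinj, hmem, hF⟩ := Pool.Agent.WW.frozen_of_hasK5 (Set.range v) hK
    choose g hg using fun e => (hmem e).1
    have hC' : v '' (v ⁻¹' C) = C := Set.image_preimage_eq_of_subset hC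
    refine hfree ⟨v ⁻¹' C, g, ?_, ?_, ?_⟩
    · intro a b hab
      apply hinj
      rw [← hg a, ← hg b, hab]
    · intro e he
      exact (hmem e).2 (by rw [← hg e]; exact he)
    · intro F
      rw [← hF F, hC']
      simp only [hg]
  have hsp : kernel v φ = Submodule.span (ZMod 2) {x | x ∈ Set.range v ∧ x ∈ kernel v φ} →
      LinearMap.ker φ ⊓ span (ZMod 2) (Set.range v) ≤
        span (ZMod 2) {x | x ∈ Set.range v ∧ φ x = 0} := by
    intro h
    change kernel v φ ≤ _
    rw [h]
    refine span_mono ?_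
    rintro x ⟨hx, hxK⟩
    exact ⟨hx, hxK.1⟩
  have h1' : (1 : ℝ) ≤ (t : ℝ) := by exact_mod_cast h1
  have key : ∀ (p : Prop) (s : ℕ), Module.finrank (ZMod 2) ↥(kernel v φ) ≤ s →
      (p → kernel v φ = Submodule.span (ZMod 2) {x | x ∈ Set.range v ∧ x ∈ kernel v φ}) →
      Pool.Agent.Work.MP_9f8812_co.LG.ClassPos lam p s → 0 < charPoly v lam := by
    intro p s ht hp hpos
    have := Pool.Agent.Work.MP_9f8812_co.LG.fam_pos
      (Pool.Agent.Work.MP_9f8812_co.LG.pr_Fam Pool.Agent.Work.MP_9f8812_co.LG.pr_Ev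
        Pool.Agent.Work.MP_9f8812_co.LG.pr_Pid Pool.Agent.Work.MP_9f8812_co.LG.pr_Cnt)
      Pool.Agent.Work.MP_9f8812_co.LG.pr_Sub v h0 hK5 φ hφ lam (by linarith) p s ht
      (fun h => hsp (hp h)) hpos Pool.Agent.Work.MP_9f8812_co.LG.pr_KS
    simpa only [charPoly] using this
  rcases hK with hK | ⟨hd, hc⟩ | ⟨h2, hK, hs⟩
  · rcases Nat.lt_or_ge 1 t with h2 | h2
    · exact key False t hK (fun h => h.elim)
        (Pool.Agent.Work.MP_9f8812_co.EC.class_gen False t t h2 (Or.inl le_rfl) lam hlam)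
    · have ht : t = 1 := by omega
      subst ht
      have hl : (5 : ℝ) ≤ lam := by push_cast at hlam; linarith
      exact key False 1 hK (fun h => h.elim)
        (Pool.Agent.Work.MP_9f8812_co.EC.class_one lam hl)
  · have hX : ((LinearMap.ker φ).comap (span (ZMod 2) (Set.range v)).subtype).map
        (span (ZMod 2) (Set.range v)).subtype = kernel v φ := by
      rw [Submodule.map_comap_subtype, inf_comm]
      rfl
    have hfr : finrank (ZMod 2) ↥((LinearMap.ker φ).comap
        (span (ZMod 2) (Set.range v)).subtype) = finrank (ZMod 2) ↥(kernel v φ) := by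
      rw [← hX, Submodule.finrank_map_subtype_eq]
    have hnc : ({y : ↥(span (ZMod 2) (Set.range v)) | (y : Fin n → ZMod 2) ∈ Set.range v ∧
        y ∈ (LinearMap.ker φ).comap (span (ZMod 2) (Set.range v)).subtype}).ncard =
        ({x | x ∈ Set.range v ∧ x ∈ kernel v φ}).ncard := by
      rw [← Set.ncard_image_of_injective _ Subtype.val_injective]
      congr 1
      ext x
      constructor
      · rintro ⟨y, ⟨hy, hyK⟩, rfl⟩
        exact ⟨hy, hyK, y.2⟩
      · rintro ⟨hx, hxK⟩
        exact ⟨⟨x, hxK.2⟩, ⟨hx, hxK.1⟩, rfl⟩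
    rw [← hfr] at hd hc
    rw [← hnc] at hc
    have hgen := Pool.Agent.Work.MP_9f8812_co.EC.fam_gen v h0 hK5 lam (by linarith)
      (fun ES hES hE0 hEK => Pool.Agent.Work.MP_9f8812_co.EC.de_pos lam (by linarith) _ ES
        ((LinearMap.ker φ).comap (span (ZMod 2) (Set.range v)).subtype)
        (Pool.Agent.Work.MP_9f8812_co.EC.dense_of_card _ _ (fun h => hE0 (by exact_mod_cast h))
          ⟨m, φ.comp (span (ZMod 2) (Set.range v)).subtype, by rw [LinearMap.ker_comp], by
            intro y hy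
            rw [hES] at hy
            obtain ⟨i, hi⟩ := hy
            change Pool.Agent.Work.MP_9f8812_co.LG.wt (φ (y : Fin n → ZMod 2)) ≤ 2
            rw [← hi]
            exact hφ i⟩ hd (by rw [hES]; exact hc)) hE0 hEK)
    simpa only [charPoly] using hgen
  · exact key True (t + 1) hK (fun _ => hs)
      (Pool.Agent.Work.MP_9f8812_co.EC.class_gen True t (t + 1) h2
        (Or.inr ⟨trivial, le_rfl⟩) lam hlam)

end Pool.Agent.Results.MP_9f8812_co.GraphicLifts
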