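import Pool.Agent.Work.MP_9f8812_co.RD.Asm
import Pool.Agent.Work.MP_a8f287_co.Frozen

set_option autoImplicit false

namespace Pool.Agent.Results.MP_9f8812_co.ReducedCounterexample

open Submodule Module

variable {n : ℕ} {ι : Type}

/-- The vector matroid of the family `v` over `GF(2)` has a minor isomorphic to `M(K5)`: there
are a set `C` of indices and ten further indices, named by the edges of `K5`, such that modulo
the span of `v '' C` a set of the ten vectors is linearly independent if and only if the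
corresponding edges form a forest. -/
def HasMinorK5 (v : ι → (Fin n → ZMod 2)) : Prop :=
  ∃ (C : Set ι) (h : (⊤ : SimpleGraph (Fin 5)).edgeSet → ι),
    Function.Injective h ∧ (∀ e, h e ∉ C) ∧
    ∀ F : Set (⊤ : SimpleGraph (Fin 5)).edgeSet,
      (LinearIndependent (ZMod 2)
          (fun e : F => (Submodule.span (ZMod 2) (v '' C)).mkQ (v (h e.1))) ↔
        (SimpleGraph.fromEdgeSet (Subtype.val '' F)).IsAcyclic)

variable [DecidableEq ι]

/-- The rank of the set `A` of elements in the contraction `M / Y` of the vector matroid `M` of the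
family `v`. -/
noncomputable def rank (v : ι → (Fin n → ZMod 2)) (Y A : Finset ι) : ℕ :=
  Module.finrank (ZMod 2) ↥(Submodule.span (ZMod 2) (v '' ((A ∪ Y : Finset ι) : Set ι))) -
    Module.finrank (ZMod 2) ↥(Submodule.span (ZMod 2) (v '' (Y : Set ι)))

/-- The characteristic polynomial at `lam` of the minor `N = (M | (T ∪ Y)) / Y` (for disjoint
`T`, `Y`): the sum over all subsets `A` of `T` of `(-1)^|A| lam^(r(N) - r_N(A))`. -/
noncomputable def charPoly (v : ι → (Fin n → ZMod 2)) (Y T : Finset ι) (lam : ℝ) : ℝ :=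
  ∑ A ∈ T.powerset, (-1 : ℝ) ^ A.card * lam ^ (rank v Y T - rank v Y A)

/-- The minor `N = (M | (T ∪ Y)) / Y` is simple and vertically 4-connected, has rank `r ≥ 6` with
`r > lam`, at least `r + (7 ⌊lam⌋ - 8) / 3` (so at least `r + 9`) and at most `3 r - 1` elements, no
rank three set with six elements (no restriction `M(K4)` or `F7`), at most `|T| - 4` triangles, and
every cocircuit has more than `lam` elements (a set whose complement has smaller rank than `N`
contains a cocircuit). -/
structure Reduced (v : ι → (Fin n → ZMod 2)) (Y T : Finset ι) (lam : ℝ) : Prop where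
  simple : ∀ A ⊆ T, A.card ≤ 2 → rank v Y A = A.card
  vertical : ∀ A ⊆ T, rank v Y A < rank v Y T → rank v Y (T \ A) < rank v Y T →
    rank v Y T + 3 ≤ rank v Y A + rank v Y (T \ A)
  six : 6 ≤ rank v Y T
  large : lam < rank v Y T
  sparse : T.card + 1 ≤ 3 * rank v Y T
  planes : ∀ A ⊆ T, rank v Y A ≤ 3 → A.card ≤ 5
  triangles : ((T.powersetCard 3).filter fun A => rank v Y A = 2).card + 4 ≤ T.card
  cocircuits : ∀ A ⊆ T, rank v Y (T \ A) < rank v Y T → lam < A.card
  corank : 3 * rank v Y T + 7 * ⌊lam⌋₊ ≤ 3 * T.card + 8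

/-- Let `v : ι → GF(2)^n` be a finite family of nonzero vectors (a coordinatization of a
loopless binary matroid `M` on `ι`) without `M(K5)`-minor, and let `lam ≥ 5` be real.  If
`P(M; lam) ≤ 0`, then `M` has a minor `N = (M | (T ∪ Y)) / Y` with `P(N; lam) ≤ 0` which is simple,
vertically 4-connected, of rank `r ≥ 6` with `r > lam`, with at least `r + (7 ⌊lam⌋ - 8) / 3` and at
most `3 r - 1` elements, without `M(K4)` and `F7` as restrictions, with at most `|T| - 4` triangles,
and with all cocircuits of size greater than `lam`.  In particular `P(M; lam) > 0` for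
`lam ≥ max 5 (r(M))`. -/
theorem result (n : ℕ) (ι : Type) [Fintype ι] [DecidableEq ι] (v : ι → (Fin n → ZMod 2))
    (h0 : ∀ i, v i ≠ 0) (hfree : ¬ HasMinorK5 v) (lam : ℝ) (hlam : 5 ≤ lam)
    (hle : charPoly v ∅ Finset.univ lam ≤ 0) :
    ∃ T Y : Finset ι, Disjoint T Y ∧ charPoly v Y T lam ≤ 0 ∧ Reduced v Y T lam := by
  classical
  have hK5 : ¬ Pool.Agent.WW.HasK5 (Set.range v) := by
    intro hK
    obtain ⟨C, h, hC, hinj, hmem, hF⟩ := Pool.Agent.WW.frozen_of_hasK5 (Set.range v) hK
    choose g hg using fun e => (hmem e).1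
    have hC' : v '' (v ⁻¹' C) = C := Set.image_preimage_eq_of_subset hC
    refine hfree ⟨v ⁻¹' C, g, ?_, ?_, ?_⟩
    · intro a b hab
      apply hinj
      rw [← hg a, ← hg b, hab]
    · intro e he
      exact (hmem e).2 (by rw [← hg e]; exact he)
    · intro F
      rw [← hF F, hC']
      simp only [hg]
  obtain ⟨T, Y, h1, h2, h3, h4, h5, h6⟩ :=
    Pool.Agent.Work.MP_9f8812_co.RD.red_all n ι v h0 hK5 lam hlam hle
  exact ⟨T, Y, h1, h2, ⟨h3.simple, h3.vertical, h3.rank, h6, h5, h3.planes, h3.triangles,
    h3.cocircuits, h4⟩⟩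

end Pool.Agent.Results.MP_9f8812_co.ReducedCounterexample
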