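import Pool.Agent.Work.MP_9f8812_co.SC5

set_option autoImplicit false

namespace Pool.Agent.Results.MP_9f8812_co.SmallCorank

open Pool.Agent.Work.MP_9f8812_co Submodule Module

/-- Let `v : ι → GF(2)^n` be a finite family of nonzero vectors (a coordinatization of a
loopless binary matroid `M` on `ι`).  If `M` has at most `r(M) + 7` elements (corank at most `7`),
then `P(M; 5) > 0`; so its chromatic number is at most `5`. -/
theorem result (n : ℕ) (ι : Type) [Fintype ι] [DecidableEq ι] (v : ι → (Fin n → ZMod 2))
    (h0 : ∀ i, v i ≠ 0)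
    (hcard : Fintype.card ι ≤
      Module.finrank (ZMod 2) ↥(Submodule.span (ZMod 2) (Set.range v)) + 7) :
    0 < ∑ X : Finset ι, (-1 : ℤ) ^ X.card *
      5 ^ (Module.finrank (ZMod 2) ↥(Submodule.span (ZMod 2) (Set.range v)) -
        Module.finrank (ZMod 2) ↥(Submodule.span (ZMod 2) (v '' (X : Set ι)))) := by
  classical
  have hP : P v Finset.univ ⊥ =
      5 ^ (n - Module.finrank (ZMod 2) ↥(Submodule.span (ZMod 2) (Set.range v))) *
      ∑ X : Finset ι, (-1 : ℤ) ^ X.card *
        5 ^ (Module.finrank (ZMod 2) ↥(Submodule.span (ZMod 2) (Set.range v)) -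
          Module.finrank (ZMod 2) ↥(Submodule.span (ZMod 2) (v '' (X : Set ι)))) := by
    have h := P_eq (v := v) Finset.univ ∅
    rw [Finset.coe_empty, Set.image_empty, span_empty, Finset.union_empty, Finset.coe_univ,
      Set.image_univ, Finset.powerset_univ] at h
    rw [h]
    congr 1
    refine Finset.sum_congr rfl (fun X _ => ?_)
    rw [Finset.union_empty]
  have hc : Cor v Finset.univ ⊥ 7 := by
    unfold Cor D
    rw [Finset.coe_univ, Set.image_univ, sup_bot_eq, finrank_bot, Finset.card_univ, add_zero]
    exact hcard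
  have h := pos_of_cor (v := v) Finset.univ ⊥ (fun e _ he => h0 e ((mem_bot _).1 he)) hc
  rw [hP] at h
  exact pos_of_mul_pos_right h (by positivity)

end Pool.Agent.Results.MP_9f8812_co.SmallCorank
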